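import Pool.Agent.H236Z.Book.Main

/-! Deciding whether the book thickness is at most five is NP-hard on graphs of treewidth at
most nine. -/

open Pool.Agent.NPC Pool.Agent.H236Z.Book in
theorem Pool.Agent.Results.MP_cfb5a8_lc.ANPHard.result :
    ∀ L : Set (List Bool), InNP L → ∃ f : List Bool → List Bool, PolyTime f ∧
      ∀ x, ∃ (n : ℕ) (G : SimpleGraph (Fin n)), f x = bits (adjMat G) ∧ treewidth G ≤ 9 ∧
        (x ∈ L ↔ bookThickness G ≤ 5) :=
  Pool.Agent.H236Z.Book.main
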